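import Pool.Agent.N634.LF.Line
import Pool.Agent.Helper99.FA.Seq

/-!
Common tools: rows of independent variables, hyperbolic polynomials are rigid.
-/

set_option autoImplicit false

open MeasureTheory Filter Topology Finset ProbabilityTheory Polynomial

namespace Pool.Agent.Helper99.LF

open Pool.Agent.N634.LF (Rigid Hyperbolic Attracted map)

variable {Ω : Type*} [MeasurableSpace Ω] {P : Measure Ω}

/-- The joint law of a finite family of independent variables. -/
theorem map_fin [IsProbabilityMeasure P] {n : ℕ} {u : Fin n → Ω → ℂ}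
    (hu : ∀ j, AEMeasurable (u j) P) (hind : iIndepFun u P) :
    AEMeasurable (fun ω i => u i ω) P ∧
      P.map (fun ω i => u i ω) = Measure.pi fun i => P.map (u i) :=
  ⟨aemeasurable_pi_lambda _ hu, (iIndepFun_iff_map_fun_eq_pi_map hu).1 hind⟩

/-- The probability of an event given by independent variables. -/
theorem prob_le [IsProbabilityMeasure P] {n : ℕ} {u : Fin n → Ω → ℂ}
    (hu : ∀ j, AEMeasurable (u j) P) (hind : iIndepFun u P) {E : Set (Fin n → ℂ)} {b : ENNReal}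
    (h : Measure.pi (fun i => P.map (u i)) E ≤ b) : P {ω | (fun i => u i ω) ∈ E} ≤ b := by
  obtain ⟨h1, h2⟩ := map_fin hu hind
  rw [← h2] at h
  exact (Measure.le_map_apply h1 _).trans h

theorem card_eq (N : ℕ) (Q : ℕ → Prop) [DecidablePred Q] :
    Nat.card {n : ℕ | n < N ∧ Q n} = ((Finset.range N).filter fun n => Q n).card := by
  rw [← Nat.card_eq_finsetCard]
  apply Nat.card_congr
  refine Equiv.subtypeEquivRight fun c => ?_
  simp [Finset.mem_filter]

/-- At most `F N` of the first `N` statements `G 0, …, G (N - 1)` fail, for all large `N`. -/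
def FewFail (G : ℕ → Prop) (F : ℕ → ℝ) : Prop :=
  ∀ᶠ N : ℕ in atTop, (Nat.card {n : ℕ | n < N ∧ ¬ G n} : ℝ) ≤ F N

/-- Events of probability `K / n ^ (1 - b)`: for all `δ` at once. -/
theorem few [IsProbabilityMeasure P] {G : Ω → ℕ → Prop} {K b : ℝ} (hb0 : 0 < b) (hb1 : b < 1)
    (n₀ : ℕ) (hB : ∀ n : ℕ, n₀ ≤ n → P {ω | ¬ G ω n} ≤ ENNReal.ofReal (K / (n : ℝ) ^ (1 - b))) :
    ∀ᵐ ω ∂P, ∀ δ : ℝ, 0 < δ → FewFail (G ω) (fun N => (N : ℝ) ^ (b + δ)) := by
  classical
  have h1 : ∀ i : ℕ, ∀ᵐ ω ∂P, FewFail (G ω) (fun N => (N : ℝ) ^ (b + 1 / (i + 1) : ℝ)) := by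
    intro i
    have h2 := Pool.Agent.Helper99.FA.count_pow (P := P) (B := fun n => {ω | ¬ G ω n})
      (K := K) (b := b) hb0 hb1 n₀ hB (δ := 1 / ((i : ℝ) + 1)) (by positivity)
    filter_upwards [h2] with ω hω
    filter_upwards [hω] with N hN
    rw [card_eq]
    convert hN
  filter_upwards [ae_all_iff.2 h1] with ω hω δ hδ
  obtain ⟨i, hi⟩ := exists_nat_one_div_lt hδ
  have h2 := hω i
  unfold FewFail at h2 ⊢
  filter_upwards [h2, eventually_ge_atTop 1] with N h3 hN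
  have hN1 : (1 : ℝ) ≤ N := by exact_mod_cast hN
  exact h3.trans (Real.rpow_le_rpow_of_exponent_le hN1 (by linarith))

/-- Events of probability `K / n ^ (1 - e)` for every `e`. -/
theorem few_zero [IsProbabilityMeasure P] {G : Ω → ℕ → Prop} (n₀ : ℕ)
    (hB : ∀ e : ℝ, 0 < e → e < 1 → ∃ K : ℝ, ∀ n : ℕ, n₀ ≤ n →
      P {ω | ¬ G ω n} ≤ ENNReal.ofReal (K / (n : ℝ) ^ (1 - e))) :
    ∀ᵐ ω ∂P, ∀ δ : ℝ, 0 < δ → FewFail (G ω) (fun N => (N : ℝ) ^ δ) := by
  have h1 : ∀ i : ℕ, ∀ᵐ ω ∂P, ∀ δ : ℝ, 0 < δ →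
      FewFail (G ω) (fun N => (N : ℝ) ^ (1 / (i + 2) + δ : ℝ)) := by
    intro i
    have hi : (0 : ℝ) < (i : ℝ) + 2 := by positivity
    obtain ⟨K, hK⟩ := hB (1 / ((i : ℝ) + 2)) (by positivity) (by
      rw [div_lt_one hi]
      have : (0 : ℝ) ≤ i := Nat.cast_nonneg i
      linarith)
    exact few (by positivity) (by
      rw [div_lt_one hi]
      have : (0 : ℝ) ≤ i := Nat.cast_nonneg i
      linarith) n₀ hK
  filter_upwards [ae_all_iff.2 h1] with ω hω δ hδ
  obtain ⟨i, hi⟩ := exists_nat_one_div_lt (half_pos hδ)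
  have h2 := hω i (δ / 2) (half_pos hδ)
  unfold FewFail at h2 ⊢
  filter_upwards [h2, eventually_ge_atTop 1] with N h3 hN
  have hN1 : (1 : ℝ) ≤ N := by exact_mod_cast hN
  refine h3.trans (Real.rpow_le_rpow_of_exponent_le hN1 ?_)
  have h4 : 1 / ((i : ℝ) + 2) ≤ 1 / (i + 1) := by
    apply one_div_le_one_div_of_le <;> [positivity; linarith]
  linarith

/-- A polynomial whose critical points escape or converge to attracting fixed points is rigid. -/
theorem rigid_of_hyp {T : ℂ[X]} (hT : 2 ≤ T.natDegree)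
    (h : ∀ c : ℂ, (derivative T).eval c = 0 →
      Tendsto (fun k : ℕ => ‖(map T)^[k] c‖) atTop atTop ∨ Attracted T c) : Rigid T :=
  Pool.Agent.N634.LF.Hyperbolic.rigid hT h

end Pool.Agent.Helper99.LF
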