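import Mathlib

/-!
The set of the monic polynomials with all roots in a closed disc is closed.
-/

set_option autoImplicit false

open Polynomial Filter Topology

namespace Pool.Agent.Helper99.LF

/-- A monic polynomial has a root close to a point at which its value is small. -/
theorem exists_root_near {P : ℂ[X]} (hP : P.Monic) (hd : 0 < P.natDegree) (x : ℂ) :
    ∃ r : ℂ, P.eval r = 0 ∧ ‖x - r‖ ^ P.natDegree ≤ ‖P.eval x‖ := by
  have hsplit := IsAlgClosed.splits P
  have hcard : Multiset.card P.roots = P.natDegree := by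
    exact (splits_iff_card_roots.1 hsplit)
  have hprod : P = (P.roots.map fun r => X - C r).prod := by
    exact (Polynomial.prod_multiset_X_sub_C_of_monic_of_roots_card_eq hP hcard).symm
  have hev : ‖P.eval x‖ = (P.roots.map fun r => ‖x - r‖).prod := by
    conv_lhs => rw [hprod]
    rw [eval_multiset_prod, Multiset.map_map]
    have : ∀ s : Multiset ℂ, ‖(s.map fun r => (X - C r : ℂ[X]).eval x).prod‖ =
        (s.map fun r => ‖x - r‖).prod := by
      intro s
      induction s using Multiset.induction_on with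
      | empty => simp
      | cons a s ih =>
        rw [Multiset.map_cons, Multiset.prod_cons, norm_mul, ih, Multiset.map_cons,
          Multiset.prod_cons, eval_sub, eval_X, eval_C]
    exact this P.roots
  have hne : P.roots ≠ 0 := by
    intro h
    rw [h, Multiset.card_zero] at hcard
    omega
  by_contra hcon
  push Not at hcon
  have hroot : ∀ r ∈ P.roots, ‖P.eval x‖ < ‖x - r‖ ^ P.natDegree := fun r hr =>
    hcon r ((mem_roots hP.ne_zero).1 hr)
  -- the smallest distance
  obtain ⟨r₀, hr₀, hmin⟩ : ∃ r₀ ∈ P.roots.toFinset, ∀ r ∈ P.roots.toFinset, ‖x - r₀‖ ≤ ‖x - r‖ := by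
    apply Finset.exists_min_image
    obtain ⟨r, hr⟩ := Multiset.exists_mem_of_ne_zero hne
    exact ⟨r, Multiset.mem_toFinset.2 hr⟩
  have h1 : ‖x - r₀‖ ^ P.natDegree ≤ ‖P.eval x‖ := by
    rw [hev, ← hcard]
    have : ∀ s : Multiset ℂ, (∀ r ∈ s, ‖x - r₀‖ ≤ ‖x - r‖) →
        ‖x - r₀‖ ^ Multiset.card s ≤ (s.map fun r => ‖x - r‖).prod := by
      intro s
      induction s using Multiset.induction_on with
      | empty => simp
      | cons a s ih =>
        intro h
        rw [Multiset.card_cons, pow_succ, Multiset.map_cons, Multiset.prod_cons, mul_comm]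
        exact mul_le_mul (h a (Multiset.mem_cons_self a s))
          (ih fun r hr => h r (Multiset.mem_cons_of_mem hr)) (by positivity) (norm_nonneg _)
    exact this _ fun r hr => hmin r (Multiset.mem_toFinset.2 hr)
  exact absurd h1 (not_le.2 (hroot r₀ (Multiset.mem_toFinset.1 hr₀)))

/-- the monic polynomial with the coefficients `a` -/
noncomputable def mon {N : ℕ} (a : Fin N → ℂ) : ℂ[X] := X ^ N + ∑ k : Fin N, C (a k) * X ^ (k : ℕ)

theorem mon_spec {N : ℕ} (a : Fin N → ℂ) : (mon a).Monic ∧ (mon a).natDegree = N := by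
  have hdeg : (∑ k : Fin N, C (a k) * X ^ (k : ℕ) : ℂ[X]).degree < N := by
    rcases Nat.eq_zero_or_pos N with rfl | hN
    · simp
    · refine lt_of_le_of_lt (degree_sum_le _ _) ?_
      rw [Finset.sup_lt_iff (by exact_mod_cast WithBot.bot_lt_coe _)]
      intro k _
      refine lt_of_le_of_lt (degree_C_mul_X_pow_le _ _) ?_
      exact_mod_cast k.2
  have hm : (mon a).Monic := monic_X_pow_add hdeg
  refine ⟨hm, ?_⟩
  unfold mon
  rw [natDegree_add_eq_left_of_degree_lt (by rw [degree_X_pow]; exact hdeg), natDegree_X_pow]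

theorem isClosed_roots (p : ℂ) (ρ : ℝ) (N : ℕ) :
    IsClosed {a : Fin N → ℂ | ∀ x : ℂ, (mon a).eval x = 0 → ‖x - p‖ ≤ ρ} := by
  rw [← isOpen_compl_iff, isOpen_iff_mem_nhds]
  intro a ha
  simp only [Set.mem_compl_iff, Set.mem_ofPred_eq, not_forall, not_le] at ha
  obtain ⟨x, hx, hxp⟩ := ha
  have hN : 0 < N := by
    rcases Nat.eq_zero_or_pos N with rfl | h
    · simp [mon] at hx
    · exact h
  have hcont : Continuous fun b : Fin N → ℂ => (mon b).eval x := by
    unfold mon
    simp only [eval_add, eval_pow, eval_X, eval_finsetSum, eval_mul, eval_C]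
    fun_prop
  set ε : ℝ := ‖x - p‖ - ρ with hε
  have hε0 : 0 < ε := by linarith
  have h1 : ∀ᶠ b in 𝓝 a, ‖(mon b).eval x‖ < ε ^ N := by
    have h2 : Tendsto (fun b : Fin N → ℂ => ‖(mon b).eval x‖) (𝓝 a) (𝓝 0) := by
      have := (hcont.norm.tendsto a)
      rwa [hx, norm_zero] at this
    exact h2.eventually (gt_mem_nhds (by positivity))
  filter_upwards [h1] with b hb
  simp only [Set.mem_compl_iff, Set.mem_ofPred_eq, not_forall, not_le]
  obtain ⟨hm, hd⟩ := mon_spec b
  obtain ⟨r, hr, hxr⟩ := exists_root_near hm (by rw [hd]; exact hN) x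
  refine ⟨r, hr, ?_⟩
  rw [hd] at hxr
  have h3 : ‖x - r‖ < ε := lt_of_pow_lt_pow_left₀ N hε0.le (hxr.trans_lt hb)
  have h4 : ‖x - p‖ ≤ ‖x - r‖ + ‖r - p‖ := by
    have : x - p = (x - r) + (r - p) := by ring
    rw [this]
    exact norm_add_le _ _
  linarith

end Pool.Agent.Helper99.LF
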