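import Pool.Agent.Helper99.FA.Scal
import Pool.Agent.Helper99.LF.Base
import Pool.Agent.W349.CD.NU

/-!
Sequences of parameters `α ^ m_k * b_k` and exceptional sets of finite logarithmic area, with one null
set for all exponents.
-/

set_option autoImplicit false

open MeasureTheory Filter Topology Finset

namespace Pool.Agent.Helper99.LF

theorem scal_seq {E : ℕ → Set ℂ} {r : ℕ → ℝ} {c : ℝ} {b : ℕ → ℂ} {m : ℕ → ℕ} {s : ℕ → ℝ}
    (hc : 0 < c) (hr : ∀ k, 0 ≤ r k)
    (hE : ∀ k, Pool.Agent.Helper99.FA.la (E k) ≤ ENNReal.ofReal (c * r k)) (hb : ∀ k, b k ≠ 0)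
    (hm : ∀ k, 1 ≤ m k) (hs : ∀ k, s k = r k / m k) :
    (Summable s → ∀ᵐ α : ℂ, ∀ᶠ k in atTop, ¬ α ^ m k * b k ∈ E k) ∧
      (¬ Summable s → (∃ c, ∀ k, s k ≤ c) → ∀ᵐ α : ℂ, ∀ δ : ℝ, 0 < δ →
        FewFail (fun k => ¬ α ^ m k * b k ∈ E k)
          (fun N => (∑ k ∈ Finset.range N, s k) ^ (1 + δ))) := by
  classical
  have hscale := W349.CD.NU_holds.2.1
  obtain ⟨h2, h3⟩ := Pool.Agent.Helper99.FA.scal (E := E) (s := r) (c := c) hc hr hE
    hscale hm hb
  have hs' : (fun k => r k / (m k : ℝ)) = s := by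
    funext k
    exact (hs k).symm
  rw [hs'] at h2 h3
  refine ⟨h2, fun hns ⟨C, hC⟩ => ?_⟩
  have hs0 : ∀ k, 0 ≤ s k := fun k => by
    rw [hs k]
    exact div_nonneg (hr k) (Nat.cast_nonneg _)
  have hdiv : Tendsto (fun N => ∑ k ∈ Finset.range N, s k) atTop atTop :=
    (not_summable_iff_tendsto_nat_atTop_of_nonneg hs0).1 hns
  have key : ∀ i : ℕ, ∀ᵐ α : ℂ, FewFail (fun k => ¬ α ^ m k * b k ∈ E k)
      (fun N => (∑ k ∈ Finset.range N, s k) ^ (1 + 1 / (i + 1) : ℝ)) := by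
    intro i
    have h4 := h3 hns C (fun k => by rw [← hs k]; exact hC k) (1 / ((i : ℝ) + 1)) (by positivity)
    filter_upwards [h4] with α hα
    unfold FewFail
    filter_upwards [hα] with N hN
    rw [card_eq]
    refine le_trans (le_of_eq ?_) (hN.trans (le_of_eq ?_))
    · congr 2
      ext k
      simp
    · congr 1
  filter_upwards [ae_all_iff.2 key] with α hα δ hδ
  obtain ⟨i, hi⟩ := exists_nat_one_div_lt hδ
  have h5 := hα i
  unfold FewFail at h5 ⊢
  filter_upwards [h5, hdiv.eventually_ge_atTop 1] with N h6 h7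
  exact h6.trans (Real.rpow_le_rpow_of_exponent_le h7 (by linarith))

end Pool.Agent.Helper99.LF
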